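import Mathlib
import Pool.Agent.Rep463.Final

/-!
# MP_6995cd_al: the representation ring `a(RG)` has no non-trivial idempotents (elementary form)

Every element of `a(RG)` is `[M] - [N]`, and `[X] = [Y]` in `a(RG)` iff `X ⊕ Q ≅ Y ⊕ Q` for some
`R`-representation `Q`.  So `e = [M] - [N]` is idempotent iff
`M⊗M ⊕ N⊗N ⊕ N ⊕ P ≅ M⊗N ⊕ M⊗N ⊕ M ⊕ P` for some `P`, `e = 0` iff `M ⊕ Q ≅ N ⊕ Q` for some `Q`,
and `e = 1` iff `M ⊕ Q ≅ N ⊕ R ⊕ Q` for some `Q`.
-/

namespace Pool.Agent.Results.MP_6995cd_al.Elementary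

open Pool.Agent.Rep463
open scoped TensorProduct

universe u v

theorem isRep_of {R : Type u} [CommRing R] {G : Type v} [Group G] (M : Type u) [AddCommGroup M]
    [Module R M] [hF : Module.Free R M] [hf : Module.Finite R M] (ρ : Representation R G M) :
    OpMod.IsRep (⟨M, fun g => ρ g⟩ : OpMod R G) :=
  ⟨hF, hf, map_one ρ, fun g h => map_mul ρ g h⟩

theorem result (R : Type u) [CommRing R] (G : Type v) [Group G] [Finite G]
    (M N P : Type u) [AddCommGroup M] [Module R M] [Module.Free R M] [Module.Finite R M]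
    [AddCommGroup N] [Module R N] [Module.Free R N] [Module.Finite R N]
    [AddCommGroup P] [Module R P] [Module.Free R P] [Module.Finite R P]
    (μ : Representation R G M) (ν : Representation R G N) (π : Representation R G P)
    (h : ∃ f : ((M ⊗[R] M) × (N ⊗[R] N) × N × P) ≃ₗ[R] ((M ⊗[R] N) × (M ⊗[R] N) × M × P),
      ∀ (g : G) (x : (M ⊗[R] M) × (N ⊗[R] N) × N × P),
        f (TensorProduct.map (μ g) (μ g) x.1, TensorProduct.map (ν g) (ν g) x.2.1, ν g x.2.2.1,
            π g x.2.2.2) =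
          (TensorProduct.map (μ g) (ν g) (f x).1, TensorProduct.map (μ g) (ν g) (f x).2.1,
            μ g (f x).2.2.1, π g (f x).2.2.2)) :
    (∃ (Q : Type u) (_ : AddCommGroup Q) (_ : Module R Q) (_ : Module.Free R Q)
      (_ : Module.Finite R Q) (κ : Representation R G Q) (f : (M × Q) ≃ₗ[R] (N × Q)),
      ∀ (g : G) (x : M × Q), f (μ g x.1, κ g x.2) = (ν g (f x).1, κ g (f x).2)) ∨
    (∃ (Q : Type u) (_ : AddCommGroup Q) (_ : Module R Q) (_ : Module.Free R Q)
      (_ : Module.Finite R Q) (κ : Representation R G Q) (f : (M × Q) ≃ₗ[R] (N × R × Q)),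
      ∀ (g : G) (x : M × Q), f (μ g x.1, κ g x.2) = (ν g (f x).1, (f x).2.1, κ g (f x).2.2)) := by
  let X : OpMod R G := ⟨M, fun g => μ g⟩
  let Y : OpMod R G := ⟨N, fun g => ν g⟩
  let Z : OpMod R G := ⟨P, fun g => π g⟩
  have hX : X.IsRep := isRep_of M μ
  have hY : Y.IsRep := isRep_of N ν
  have hZ : Z.IsRep := isRep_of P π
  let x : repClass R G := ⟨OpClass.mk X, X, rfl, hX⟩
  let y : repClass R G := ⟨OpClass.mk Y, Y, rfl, hY⟩
  let z : repClass R G := ⟨OpClass.mk Z, Z, rfl, hZ⟩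
  have hiso : ((X.tensor X).sum ((Y.tensor Y).sum (Y.sum Z))).Iso
      ((X.tensor Y).sum ((X.tensor Y).sum (X.sum Z))) := by
    obtain ⟨f, hf⟩ := h
    exact ⟨f, fun g x => hf g x⟩
  have h1 : x * x + (y * y + (y + z)) = x * y + (x * y + (x + z)) :=
    Subtype.ext (OpClass.mk_eq_mk.2 hiso)
  have h2 := congrArg (fun w : repClass R G => (K0.of w : RepRing R G)) h1
  simp only [map_add, K0.of_mul] at h2
  have hid : ((K0.of x : RepRing R G) - K0.of y) * (K0.of x - K0.of y) = K0.of x - K0.of y := by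
    linear_combination h2
  have key : ∀ q : repClass R G, ∃ (Q : Type u) (_ : AddCommGroup Q) (_ : Module R Q)
      (_ : Module.Free R Q) (_ : Module.Finite R Q) (κ : Representation R G Q),
      OpClass.mk (⟨Q, fun g => κ g⟩ : OpMod R G) = q.1 := by
    rintro ⟨_, Q, rfl, hQ⟩
    exact ⟨Q.carrier, inferInstance, inferInstance, hQ.free, hQ.finite,
      { toFun := fun g => Q.op g
        map_one' := hQ.map_one
        map_mul' := fun g h => hQ.map_mul g h }, rfl⟩
  rcases idempotents_trivial _ hid with h3 | h3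
  · left
    obtain ⟨q, hq⟩ := K0.of_eq_of_iff.1 (sub_eq_zero.1 h3)
    obtain ⟨Q, _, _, hQF, hQf, κ, hκ⟩ := key q
    have h4 := congrArg Subtype.val hq
    have h5 : OpClass.mk X + OpClass.mk (⟨Q, fun g => κ g⟩ : OpMod R G) =
        OpClass.mk Y + OpClass.mk (⟨Q, fun g => κ g⟩ : OpMod R G) := by rw [hκ]; exact h4
    obtain ⟨f, hf⟩ := OpClass.mk_eq_mk.1 h5
    exact ⟨Q, _, _, hQF, hQf, κ, f, fun g x => hf g x⟩
  · right
    have h6 : (K0.of x : RepRing R G) = K0.of (y + 1) := by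
      rw [map_add, K0.of_one]
      linear_combination h3
    obtain ⟨q, hq⟩ := K0.of_eq_of_iff.1 h6
    obtain ⟨Q, _, _, hQF, hQf, κ, hκ⟩ := key q
    have h4 := congrArg Subtype.val hq
    have h5 : OpClass.mk X + OpClass.mk (⟨Q, fun g => κ g⟩ : OpMod R G) =
        OpClass.mk Y + (OpClass.mk (OpMod.unit R G) +
          OpClass.mk (⟨Q, fun g => κ g⟩ : OpMod R G)) := by
      rw [hκ, ← add_assoc]; exact h4
    obtain ⟨f, hf⟩ := OpClass.mk_eq_mk.1 h5
    exact ⟨Q, _, _, hQF, hQf, κ, f, fun g x => hf g x⟩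

end Pool.Agent.Results.MP_6995cd_al.Elementary
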