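import Mathlib
import Pool.Agent.Rep463.Rep
import Pool.Agent.Rep463.Final

/-!
# MP_6995cd_al: the representation ring `a(RG)` has no non-trivial idempotents

For every commutative ring `R` with identity and every finite group `G`, the only idempotents of
the representation ring `a(RG)` are `0` and `1`.
-/

namespace Pool.Agent.Results.MP_6995cd_al.NoIdempotents

open Pool.Agent.Rep463

/-- Q1, answered in the affirmative: for every commutative ring `R` and every finite group `G`,
every idempotent of `a(RG)` is `0` or `1`. -/
theorem result.{u, v} (R : Type u) [CommRing R] (G : Type v) [Group G] [Finite G]
    (e : RepRing R G) (he : e * e = e) : e = 0 ∨ e = 1 :=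
  idempotents_trivial e he

end Pool.Agent.Results.MP_6995cd_al.NoIdempotents
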